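import Pool.Agent.Q93.Alu.Glob

open scoped InnerProductSpace ComplexOrder

namespace Pool.Agent.Results.MP_a9e7a9_an.FixedPointsQuasinormal

noncomputable section

universe u

variable {H : Type u} [NormedAddCommGroup H] [InnerProductSpace ℂ H] [CompleteSpace H]

/-- `T = V|T|` is the canonical polar decomposition: `V` is a partial isometry and
`ker V = ker T`. -/
def IsPolar (T V : H →L[ℂ] H) : Prop :=
  T = V * CFC.abs T ∧ V * star V * V = V ∧ ∀ x : H, V x = 0 ↔ T x = 0

/-- `|T|^s` for `s ≥ 0`, by the continuous functional calculus (`|T|^0 = 1`). -/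
def absPow (T : H →L[ℂ] H) (s : ℝ) : H →L[ℂ] H := cfc (fun t : ℝ => t ^ s) (CFC.abs T)

/-- The `μ`-Aluthge transform `|T|^μ V |T|^(1-μ)`. -/
def aluthge (μ : ℝ) (T V : H →L[ℂ] H) : H →L[ℂ] H := absPow T μ * V * absPow T (1 - μ)

/-- The mean `λ`-Aluthge transform. -/
def meanAluthge (l : ℝ) (T V : H →L[ℂ] H) : H →L[ℂ] H :=
  (1 / 2 : ℂ) • (aluthge l T V + aluthge (1 - l) T V)

/-- `T` commutes with `T^* T`. -/
def QuasiNormal (T : H →L[ℂ] H) : Prop := T * (star T * T) = star T * T * T

/-- `C` vanishes if it vanishes on the range and on the kernel of a self-adjoint operator. -/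
lemma eq_zero_of (P C : H →L[ℂ] H) (hP : IsSelfAdjoint P) (h1 : C * P = 0)
    (h2 : ∀ x, P x = 0 → C x = 0) : C = 0 := by
  have h3 : P * star C = 0 := by
    have := congrArg star h1
    rwa [star_mul, hP.star_eq, star_zero] at this
  have h4 : C * star C = 0 := by
    ext x
    have : P (star C x) = 0 := by
      have := congrArg (fun A : H →L[ℂ] H => A x) h3
      simpa using this
    simpa using h2 _ this
  exact (CStarRing.mul_star_self_eq_zero_iff C).1 h4

lemma abs_sa (T : H →L[ℂ] H) : IsSelfAdjoint (CFC.abs T) := (CFC.abs_nonneg T).isSelfAdjoint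

lemma abs_norm (T : H →L[ℂ] H) (x : H) : ‖CFC.abs T x‖ = ‖T x‖ := by
  have h1 : ‖CFC.abs T x‖ ^ 2 = ‖T x‖ ^ 2 := by
    have e1 : (‖CFC.abs T x‖ ^ 2 : ℝ) = RCLike.re ⟪(star T * T) x, x⟫_ℂ := by
      rw [← CFC.abs_mul_abs T, mul_apply_eq_comp]
      have := (abs_sa T).isSymmetric (CFC.abs T x) x
      have h : ⟪CFC.abs T (CFC.abs T x), x⟫_ℂ = ⟪CFC.abs T x, CFC.abs T x⟫_ℂ := this
      rw [h, inner_self_eq_norm_sq]
    rw [e1, mul_apply_eq_comp, ContinuousLinearMap.star_eq_adjoint,
      ContinuousLinearMap.adjoint_inner_left, inner_self_eq_norm_sq]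
  have h2 := congrArg Real.sqrt h1
  rwa [Real.sqrt_sq (norm_nonneg _), Real.sqrt_sq (norm_nonneg _)] at h2

lemma abs_ker (T : H →L[ℂ] H) (x : H) : CFC.abs T x = 0 ↔ T x = 0 := by
  rw [← norm_eq_zero, abs_norm, norm_eq_zero]

lemma abs_spec (T : H →L[ℂ] H) :
    ∀ t ∈ spectrum ℝ (CFC.abs T), 0 ≤ t ∧ t ≤ ‖CFC.abs T‖ + 1 := by
  intro t ht
  constructor
  · exact spectrum_nonneg_of_nonneg (CFC.abs_nonneg T) ht
  · have h1 := spectrum.norm_le_norm_mul_of_mem ht
    have h2 : ‖(1 : H →L[ℂ] H)‖ ≤ 1 := ContinuousLinearMap.norm_id_le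
    have h3 : ‖t‖ ≤ ‖CFC.abs T‖ * 1 :=
      h1.trans (mul_le_mul_of_nonneg_left h2 (norm_nonneg _))
    have h4 : t ≤ ‖t‖ := le_abs_self t
    linarith

theorem exists_polar (T : H →L[ℂ] H) : ∃ V, IsPolar T V := by
  set P := CFC.abs T with hP
  have hPsa : IsSelfAdjoint P := abs_sa T
  set K : Submodule ℂ H := (LinearMap.range P.toLinearMap).topologicalClosure with hK
  have hKc : IsClosed (K : Set H) := Submodule.isClosed_topologicalClosure _
  have : CompleteSpace K := hKc.completeSpace_coe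
  have hmem : ∀ x, P x ∈ K := fun x =>
    Submodule.le_topologicalClosure _ ⟨x, rfl⟩
  let e : H →ₗ[ℂ] K := LinearMap.codRestrict K P.toLinearMap hmem
  have he : ∀ x, ((e x : K) : H) = P x := fun x => rfl
  have hdense : DenseRange e := by
    intro k
    rw [Metric.mem_closure_iff]
    intro ε hε
    have hk : (k : H) ∈ closure (LinearMap.range P.toLinearMap : Set H) := k.2
    rw [Metric.mem_closure_iff] at hk
    obtain ⟨y, ⟨x, hx⟩, hy⟩ := hk ε hε
    refine ⟨e x, ⟨x, rfl⟩, ?_⟩
    rw [Subtype.dist_eq, he]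
    have : P x = y := hx
    rw [this]
    exact hy
  have hnorm : ∀ x, ‖T.toLinearMap x‖ = ‖e x‖ := fun x => by
    change ‖T x‖ = ‖P x‖
    exact (abs_norm T x).symm
  have hbd : ∃ C, ∀ x, ‖T.toLinearMap x‖ ≤ C * ‖e x‖ := ⟨1, fun x => by rw [one_mul, hnorm]⟩
  let U : K →L[ℂ] H := T.toLinearMap.extendOfNorm e
  have hU : ∀ x, U (e x) = T x := fun x => LinearMap.extendOfNorm_eq hdense hbd x
  have hUn : ∀ k, ‖U k‖ = ‖k‖ := by
    intro k
    have h1 : IsClosed {k : K | ‖U k‖ = ‖k‖} :=
      isClosed_eq (U.continuous.norm) continuous_norm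
    have h2 : Set.range e ⊆ {k : K | ‖U k‖ = ‖k‖} := by
      rintro _ ⟨x, rfl⟩
      change ‖U (e x)‖ = ‖e x‖
      rw [hU]
      exact hnorm x
    exact (closure_minimal h2 h1) (hdense k)
  let UI : K →ₗᵢ[ℂ] H := ⟨U.toLinearMap, hUn⟩
  have hUI : ∀ k, UI k = U k := fun k => rfl
  let V : H →L[ℂ] H := U ∘L K.orthogonalProjectionOnto
  have hV : ∀ x, V x = U (K.orthogonalProjectionOnto x) := fun x => rfl
  have hVP : ∀ x, V (P x) = T x := by
    intro x
    rw [hV]
    have : K.orthogonalProjectionOnto (P x) = e x := by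
      apply Subtype.ext
      rw [he]
      exact Submodule.starProjection_eq_self_iff.2 (hmem x)
    rw [this, hU]
  have hVV : star V * V = K.starProjection := by
    ext x
    apply ext_inner_right ℂ
    intro z
    rw [mul_apply_eq_comp, ContinuousLinearMap.star_eq_adjoint,
      ContinuousLinearMap.adjoint_inner_left, hV, hV, ← hUI, ← hUI, UI.inner_map_map,
      Submodule.coe_inner]
    change ⟪K.starProjection x, K.starProjection z⟫_ℂ = _
    rw [← Submodule.inner_starProjection_left_eq_right]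
    congr 1
    exact Submodule.starProjection_eq_self_iff.2 (Submodule.starProjection_apply_mem K x)
  refine ⟨V, ?_, ?_, ?_⟩
  · ext x
    exact (hVP x).symm
  · rw [mul_assoc, hVV]
    ext x
    change U (K.orthogonalProjectionOnto (K.starProjection x)) = U (K.orthogonalProjectionOnto x)
    congr 1
    apply Subtype.ext
    exact Submodule.starProjection_eq_self_iff.2 (Submodule.starProjection_apply_mem K x)
  · intro x
    have h1 : V x = 0 ↔ K.starProjection x = 0 := by
      rw [← norm_eq_zero, hV, hUn, norm_eq_zero]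
      exact Subtype.ext_iff
    rw [h1, Submodule.starProjection_apply_eq_zero_iff, ← abs_ker T x]
    constructor
    · intro hx
      have h2 : ⟪P (P x), x⟫_ℂ = 0 := (Submodule.mem_orthogonal K x).1 hx _ (hmem _)
      have h3 : ⟪P (P x), x⟫_ℂ = ⟪P x, P x⟫_ℂ := hPsa.isSymmetric (P x) x
      rw [h3, inner_self_eq_zero] at h2
      exact h2
    · intro hx
      rw [hK, Submodule.mem_orthogonal]
      intro u hu
      have hcl : IsClosed {u : H | ⟪u, x⟫_ℂ = 0} :=
        isClosed_eq (continuous_id.inner continuous_const) continuous_const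
      have hsub : (LinearMap.range P.toLinearMap : Set H) ⊆ {u : H | ⟪u, x⟫_ℂ = 0} := by
        rintro _ ⟨y, rfl⟩
        change ⟪P y, x⟫_ℂ = 0
        have h3 : ⟪P y, x⟫_ℂ = ⟪y, P x⟫_ℂ := hPsa.isSymmetric y x
        have hx' : P x = 0 := hx
        rw [h3, hx', inner_zero_right]
      exact (closure_minimal hsub hcl) hu

theorem polar_unique (T V V' : H →L[ℂ] H) (h : IsPolar T V) (h' : IsPolar T V') : V' = V := by
  have h0 : V' - V = 0 := by
    apply eq_zero_of (CFC.abs T) _ (abs_sa T)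
    · rw [sub_mul, ← h.1, ← h'.1, sub_self]
    · intro x hx
      rw [abs_ker] at hx
      simp [(h.2.2 x).2 hx, (h'.2.2 x).2 hx]
  exact sub_eq_zero.1 h0

/-- `|T|^s |T|^t` -/
lemma absPow_mul (T : H →L[ℂ] H) {l : ℝ} (h0 : 0 ≤ l) (h1 : l ≤ 1) :
    absPow T l * absPow T (1 - l) = CFC.abs T := by
  unfold absPow
  have hsa := abs_sa T
  rw [← cfc_mul _ _ _ (Q93.Alu.cont_rpow h0 _) (Q93.Alu.cont_rpow (by linarith) _)]
  conv_rhs => rw [← cfc_id' ℝ (CFC.abs T)]
  apply cfc_congr
  intro t ht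
  have ht0 := (abs_spec T t ht).1
  change t ^ l * t ^ (1 - l) = t
  rw [← Real.rpow_add' ht0 (by norm_num : l + (1 - l) ≠ 0)]
  norm_num

theorem main_iff (T V : H →L[ℂ] H) (l : ℝ) (h : IsPolar T V) (hl0 : 0 ≤ l) (hl1 : l ≤ 1 / 2) :
    meanAluthge l T V = T ↔ QuasiNormal T := by
  set P := CFC.abs T with hP
  have hPsa : IsSelfAdjoint P := abs_sa T
  have hTP : T = V * P := h.1
  have hPP : P * P = star T * T := CFC.abs_mul_abs T
  constructor
  · intro hM
    have hm : (0 : ℝ) < ‖P‖ + 1 := by positivity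
    have heq : ∀ z, Q93.Alu.pw P l (V (Q93.Alu.pw P (1 - l) z))
        + Q93.Alu.pw P (1 - l) (V (Q93.Alu.pw P l z)) = (2 : ℝ) • V (P z) := by
      intro z
      have h1 : (2 : ℝ) • (meanAluthge l T V z) = (2 : ℝ) • T z := by rw [hM]
      have h2 : (2 : ℝ) • T z = (2 : ℝ) • V (P z) := by
        conv_lhs => rw [hTP]
        rfl
      rw [h2] at h1
      rw [← h1]
      unfold meanAluthge aluthge
      simp only [sub_sub_cancel]
      change _ = (2 : ℝ) • ((1 / 2 : ℂ) • (absPow T l (V (absPow T (1 - l) z))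
        + absPow T (1 - l) (V (absPow T l z))))
      rw [← Complex.coe_smul, smul_smul]
      norm_num
      rfl
    have hc := Q93.Alu.comm_P P hPsa hm (abs_spec T) V hl0 hl1 heq
    have hc' : P * V * P = V * P * P := by
      ext x; exact hc x
    unfold QuasiNormal
    rw [← hPP]
    calc T * (P * P) = V * P * P * P := by rw [hTP]; noncomm_ring
      _ = P * V * P * P := by rw [← hc']
      _ = P * (V * P * P) := by noncomm_ring
      _ = P * (P * V * P) := by rw [← hc']
      _ = P * P * (V * P) := by noncomm_ring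
      _ = P * P * T := by rw [← hTP]
  · intro hq
    have hcomm : Commute T (star T * T) := hq
    have hcP : Commute T P := (Commute.cfcₙ_nnreal hcomm.symm _).symm
    have hVP : V * P = P * V := by
      have h0 : V * P - P * V = 0 := by
        apply eq_zero_of P _ hPsa
        · rw [sub_mul, sub_eq_zero]
          calc V * P * P = T * P := by rw [← hTP]
            _ = P * T := hcP
            _ = P * V * P := by rw [mul_assoc, ← hTP]
        · intro x hx
          have hT : T x = 0 := (abs_ker T x).1 hx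
          have hV : V x = 0 := (h.2.2 x).2 hT
          simp [hx, hV]
      exact sub_eq_zero.1 h0
    have hVc : Commute P V := hVP.symm
    have hpow : ∀ s, Commute (absPow T s) V := fun s => Commute.cfc_real hVc _
    have hd : ∀ s : ℝ, 0 ≤ s → s ≤ 1 → aluthge s T V = T := by
      intro s hs0 hs1
      unfold aluthge
      rw [(hpow s).eq, mul_assoc, absPow_mul T hs0 hs1, ← hP, ← hTP]
    unfold meanAluthge
    rw [hd l hl0 (by linarith), hd (1 - l) (by linarith) (by linarith), ← two_smul ℂ T, smul_smul]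
    norm_num

theorem result :
    (∀ T : H →L[ℂ] H, ∃! V : H →L[ℂ] H, IsPolar T V) ∧
    ∀ (T V : H →L[ℂ] H) (l : ℝ), IsPolar T V → 0 ≤ l → l ≤ 1 / 2 →
      (meanAluthge l T V = T ↔ QuasiNormal T) := by
  refine ⟨fun T => ?_, fun T V l h h0 h1 => main_iff T V l h h0 h1⟩
  obtain ⟨V, hV⟩ := exists_polar T
  exact ⟨V, hV, fun V' hV' => polar_unique T V V' hV hV'⟩

end

end Pool.Agent.Results.MP_a9e7a9_an.FixedPointsQuasinormal
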